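import Mathlib

set_option autoImplicit false

namespace Pool.Agent.Results.MP_6238b5_al.Neg

open Real

abbrev E := EuclideanSpace ℝ (Fin 3)

abbrev S2 := Metric.sphere (0 : E) 1

/-- Rodrigues formula: rotation of `u` by the angle `ψ` about the unit vector `v`. -/
noncomputable def rot (ψ : ℝ) (v u : E) : E :=
  cos ψ • u + sin ψ • WithLp.toLp 2 (crossProduct v.ofLp u.ofLp) + ((1 - cos ψ) * inner ℝ v u) • v

lemma mem {x : E} : x ∈ S2 ↔ x 0 ^ 2 + x 1 ^ 2 + x 2 ^ 2 = 1 := by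
  rw [mem_sphere_zero_iff_norm, EuclideanSpace.norm_eq, sqrt_eq_one]
  simp [Fin.sum_univ_three]

noncomputable def R (t : ℝ) (x : S2) : S2 :=
  ⟨!₂[x.1 0 * cos t - x.1 1 * sin t, x.1 0 * sin t + x.1 1 * cos t, x.1 2], by
    have := mem.1 x.2
    rw [mem]
    simp
    linear_combination this + (x.1 0 ^ 2 + x.1 1 ^ 2) * sin_sq_add_cos_sq t⟩

lemma R2 (t : ℝ) (x : S2) : (R t x).1 2 = x.1 2 := rfl

lemma RR (s t : ℝ) (x : S2) : R s (R t x) = R (s + t) x := by
  ext i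
  fin_cases i <;> simp [R, cos_add, sin_add] <;> ring

lemma R0 (x : S2) : R 0 x = x := by
  ext i
  fin_cases i <;> simp [R]

theorem result : ∃ op : S2 → S2 → S2, Continuous (fun p : S2 × S2 => op p.1 p.2) ∧
    (∀ x, op x x = x) ∧ (∀ y, Function.Bijective fun x => op x y) ∧
    (∀ x y z, op (op x y) z = op (op x z) (op y z)) ∧
    (¬ ∃ h : S2 ≃ₜ S2, ∀ x y, h (op x y) = h x) ∧
    ¬ ∃ ψ : ℝ, 0 < ψ ∧ ψ < 2 * π ∧ ∃ h : S2 ≃ₜ S2, ∀ x y, (h (op x y)).1 = rot ψ (h y).1 (h x).1 := by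
  refine ⟨fun x y => R (x.1 2 - y.1 2) x, ?_, fun x => by simp [R0], fun y => ?_, fun x y z => ?_,
    fun ⟨h, H⟩ => ?_, fun ⟨ψ, h1, h2, h, H⟩ => ?_⟩
  · refine Continuous.subtype_mk ((PiLp.continuous_toLp 2 _).comp (continuous_pi fun i => ?_)) _
    fin_cases i <;> simp <;> fun_prop
  · exact Function.bijective_iff_has_inverse.2 ⟨fun x => R (y.1 2 - x.1 2) x,
      fun x => by simp [R2, RR, R0], fun x => by simp [R2, RR, R0]⟩
  · simp only [R2, RR]
    congr 1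
    ring
  · have := congrArg (fun x : S2 => x.1 1) (h.injective
      (H ⟨!₂[1, 0, 0], mem.2 (by simp)⟩ ⟨!₂[0, 0, -1], mem.2 (by simp)⟩))
    simp [R] at this
    exact (sin_pos_of_pos_of_le_two one_pos one_le_two).ne' this
  · let N : S2 := ⟨!₂[0, 0, 1], mem.2 (by simp)⟩
    have hN : ∀ t, R t N = N := fun t => by
      ext i
      fin_cases i <;> simp [R, N]
    have k : ∀ v : S2, (h N).1 = rot ψ v.1 (h N).1 := fun v => by
      simpa [hN] using H N (h.symm v)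
    have hu := mem.1 (h N).2
    generalize (h N).1 = u at k hu
    have a := fun i => congrArg (· i) (k ⟨!₂[1, 0, 0], mem.2 (by simp)⟩)
    have b := fun i => congrArg (· i) (k ⟨!₂[0, 1, 0], mem.2 (by simp)⟩)
    have a1 := a 1
    have a2 := a 2
    have b0 := b 0
    have b2 := b 2
    simp [rot, crossProduct] at a1 a2 b0 b2
    have hc : cos ψ ≠ 1 := fun e => by
      have := (cos_eq_one_iff_of_lt_of_lt (by linarith [pi_pos]) h2).1 e
      linarith
    have c1 : (1 - cos ψ) * (u 1 ^ 2 + u 2 ^ 2) = 0 := by linear_combination u 1 * a1 + u 2 * a2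
    have c2 : (1 - cos ψ) * (u 0 ^ 2 + u 2 ^ 2) = 0 := by linear_combination u 0 * b0 + u 2 * b2
    have d1 := (mul_eq_zero.1 c1).resolve_left (sub_ne_zero.2 hc.symm)
    have d2 := (mul_eq_zero.1 c2).resolve_left (sub_ne_zero.2 hc.symm)
    nlinarith [sq_nonneg (u 2)]

end Pool.Agent.Results.MP_6238b5_al.Neg
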